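import Pool.Agent.H914R2.KCorr
import Pool.Agent.U644.LT.PreDefs

/-!
# The monodromy-weight conjecture for varieties with a decomposition of the diagonal: definitions

The base field `k` is a local field with residue field with `q` elements, `W` is a Weil cohomology for
a class of smooth projective varieties over `k`, for example `X ↦ H^*(X_{\bar k}, \bar ℚ_ℓ)`.
-/

set_option autoImplicit false

open CategoryTheory AlgebraicGeometry

universe u v

namespace Pool.Agent.U548.DG

open Pool.Agent.H914 Pool.Agent.H914.VarClass Pool.Agent.H914.VarClass.Obj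
  Pool.Agent.H914.WeilCohomology Pool.Agent.Y163.MW Pool.Agent.U644.LT

section Linear

variable {K : Type*} [Field K] {V V' : Type*} [AddCommGroup V] [Module K V] [AddCommGroup V']
  [Module K V']

/-- `F' (f x) = f (F x)`. -/
def Commutes (f : V →ₗ[K] V') (F : Module.End K V) (F' : Module.End K V') : Prop :=
  ∀ x, F' (f x) = f (F x)

/-- `F x = c x` and `N x = 0`. -/
def Scaled (F N : Module.End K V) (c : K) (x : V) : Prop := F x = c • x ∧ N x = 0

/-- `T` induces a bijection of `gr i` with `gr j`. -/
def BijOn (gr : ℕ → Submodule K V) (T : Module.End K V) (i j : ℕ) : Prop :=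
  (∀ x ∈ gr i, T x = 0 → x = 0) ∧ ∀ y ∈ gr j, ∃ x ∈ gr i, T x = y

/-- The composition of two linear maps. -/
def comp2 {A B C : Type*} [AddCommGroup A] [Module K A] [AddCommGroup B] [Module K B]
    [AddCommGroup C] [Module K C] (g : B →ₗ[K] C) (f : A →ₗ[K] B) : A →ₗ[K] C := g ∘ₗ f

/-- The identity is a finite sum of members of `S`. -/
def Decomposes (S : Set (Module.End K V)) : Prop :=
  (1 : Module.End K V) ∈ AddSubmonoid.closure S

/-- `F` is multiplicative and `N` is a derivation, and `tr (F x) = c tr x`, `tr (N x) = 0`. -/
structure IsLocalAlg {H : Type*} [Ring H] [Algebra K H] (F N : Module.End K H) (tr : H →ₗ[K] K)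
    (c : K) : Prop where
  F_mul : ∀ x y, F (x * y) = F x * F y
  N_mul : ∀ x y, N (x * y) = N x * y + x * N y
  F_tr : ∀ x, tr (F x) = c * tr x
  N_tr : ∀ x, tr (N x) = 0

end Linear

variable {k : Type u} [Field k] {𝒱 : VarClass k} {ops : CycleOps 𝒱}

/-- The operators on the cohomology of the varieties over a local field: `F X` is the action of an
element of the Weil group which induces the geometric Frobenius, `N X` is the monodromy operator (the
logarithm of the action of the inertia group). -/
structure LocalAction (W : WeilCohomology.{u, v} ops) where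
  /-- the geometric Frobenius -/
  F : ∀ X : 𝒱.Obj, Module.End W.K (W.H X)
  /-- the monodromy operator -/
  N : ∀ X : 𝒱.Obj, Module.End W.K (W.H X)

variable {W : WeilCohomology.{u, v} ops}

/-- The cohomology of `X` with its degrees and operators. -/
def LocalAction.coh (A : LocalAction W) (X : 𝒱.Obj) : Coh W.K where
  V := W.H X
  gr := W.gr X
  F := A.F X
  N := A.N X

/-- The composition of the pull-back `H(Y) → H(S)` and of the push-forward `H(S) → H(Y)`. -/
noncomputable def pushPull (W : WeilCohomology.{u, v} ops) {S Y : 𝒱.Obj} (s : S ⟶ Y) :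
    Module.End W.K (W.H Y) := comp2 (W.push s) (W.map s).toLinearMap

/-- The known properties of the operators:

* `q > 1`; `F` and `N` respect the degrees, `N F = q F N`, and the eigenvalues of `F` are `q`-Weil
  numbers of integral weights (`IsPre`);
* `F` is multiplicative, `N` is a derivation; on the cohomology in degree `2 dim X`, `F` is
  multiplication by `q ^ dim X` and `N` is zero;
* both are compatible with pull-backs;
* on the class of a cycle of codimension `j`, `F` is multiplication by `q ^ j` and `N` is zero;
* (theorem of Bertini, hard Lefschetz theorem) for `1 ≤ j ≤ n = dim Y` there is a smooth subvariety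
  `s : S ⟶ Y` of dimension `j`, an intersection of hyperplane sections, such that the composition
  `H^j(Y) → H^j(S) → H^(2n - j)(Y)` of the restriction and of the push-forward is bijective. -/
structure LocalAction.Known (A : LocalAction W) (q : ℕ) : Prop where
  one_lt : 1 < q
  pre : ∀ X, IsPre (A.coh X) q
  alg : ∀ X, IsLocalAlg (A.F X) (A.N X) (W.tr X) ((q : W.K) ^ X.dim)
  map : ∀ {X Y : 𝒱.Obj} (f : X ⟶ Y), Commutes (W.map f).toLinearMap (A.F Y) (A.F X) ∧
    Commutes (W.map f).toLinearMap (A.N Y) (A.N X)
  cl : ∀ (X : 𝒱.Obj) (j : ℕ) (z : X.Cycles), X.IsCyc j z →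
    Scaled (A.F X) (A.N X) ((q : W.K) ^ j) (W.cl X z)
  section_exists : ∀ (Y : 𝒱.Obj) (j : ℕ), 1 ≤ j → j ≤ Y.dim →
    ∃ (S : 𝒱.Obj) (s : S ⟶ Y), S.dim = j ∧ BijOn (W.gr Y) (pushPull W s) j (2 * Y.dim - j)

/-- The monodromy-weight conjecture for `H^j(X)`: it is mw pure of weight `j`. -/
def LocalAction.PureIn (A : LocalAction W) (q : ℕ) (X : 𝒱.Obj) (j : ℕ) : Prop :=
  (A.coh X).MWPure q j

/-- The monodromy-weight conjecture for `X`: all `H^j(X)` are mw pure of weight `j`. -/
def LocalAction.MW (A : LocalAction W) (q : ℕ) (X : 𝒱.Obj) : Prop := ∀ j, A.PureIn q X j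

/-- A cycle on `X × X` of dimension `dim X` which is supported on `S × T`: smooth projective varieties
`S`, `T` with morphisms `v : S ⟶ X`, `w : T ⟶ X`, and a cycle on `S × T` of dimension `dim X`. -/
structure Supported (X : 𝒱.Obj) where
  /-- the first variety -/
  S : 𝒱.Obj
  /-- the second variety -/
  T : 𝒱.Obj
  /-- the first morphism -/
  v : S ⟶ X
  /-- the second morphism -/
  w : T ⟶ X
  /-- the codimension of the cycle -/
  p : ℕ
  /-- the cycle -/
  z : (S.prod T).Cycles
  isCyc : (S.prod T).IsCyc p z
  dim_eq : p + X.dim = S.dim + T.dim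

/-- The operator on `H(X)` given by the cycle: the composition of `v^*`, of the correspondence, and of
`w_*`. -/
noncomputable def Supported.op (W : WeilCohomology.{u, v} ops) {X : 𝒱.Obj} (Z : Supported X) :
    Module.End W.K (W.H X) :=
  comp2 (W.push Z.w) (comp2 (W.corr (W.cl _ Z.z)) (W.map Z.v).toLinearMap)

/-- A pair of algebraic correspondences from `X` to `Y` and from `Y` to `X`, of any degrees. -/
structure Through (X : 𝒱.Obj) where
  /-- the variety -/
  Y : 𝒱.Obj
  /-- the codimension of the first cycle -/
  p : ℕ
  /-- the codimension of the second cycle -/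
  p' : ℕ
  /-- the first cycle -/
  z : (X.prod Y).Cycles
  /-- the second cycle -/
  z' : (Y.prod X).Cycles
  isCyc : (X.prod Y).IsCyc p z
  isCyc' : (Y.prod X).IsCyc p' z'

/-- The composition `H(X) → H(Y) → H(X)` of the two operators. -/
noncomputable def Through.op (W : WeilCohomology.{u, v} ops) {X : 𝒱.Obj} (Z : Through X) :
    Module.End W.K (W.H X) :=
  comp2 (W.corr (W.cl _ Z.z')) (W.corr (W.cl _ Z.z))

/-- The operators which may be used: those given by cycles supported on products `S × T` with
`dim S + dim T ≤ dim X + D` or `dim T ≤ dim X - c`, and those which factor through the cohomology of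
members of `𝒞`. -/
def pieces (W : WeilCohomology.{u, v} ops) (𝒞 : Set 𝒱.Obj) (X : 𝒱.Obj) (D c : ℕ) :
    Set (Module.End W.K (W.H X)) :=
  {φ | (∃ Z : Supported X, (Z.S.dim + Z.T.dim ≤ X.dim + D ∨ Z.T.dim + c ≤ X.dim) ∧ φ = Z.op W) ∨
    ∃ Z : Through X, Z.Y ∈ 𝒞 ∧ φ = Z.op W}

/-- **Decomposition of the diagonal.** The identity of `H(X)`, that is, the operator given by the
diagonal, is a finite sum of

* operators given by cycles supported on products `S × T` with `dim S + dim T ≤ dim X + D`,
* operators given by cycles supported on products `S × T` with `dim T ≤ dim X - c`,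
* compositions `H(X) → H(Y) → H(X)` of operators given by algebraic correspondences (of any degrees)
  with members `Y` of `𝒞`.

Such a decomposition exists if for all `i < c` the Chow group `CH_i(X)` (over an algebraically closed
field of infinite transcendence degree, with rational coefficients) is generated by the images of
Chow groups of members of `𝒞` under correspondences and by cycles on subvarieties of dimension at most
`i + D` (Bloch-Srinivas, Laterveer). -/
def HasDecomposition (W : WeilCohomology.{u, v} ops) (𝒞 : Set 𝒱.Obj) (X : 𝒱.Obj) (D c : ℕ) : Prop :=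
  Decomposes (pieces W 𝒞 X D c)

end Pool.Agent.U548.DG
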