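import Pool.Agent.U644.LT.Pre

/-!
# mw purity and equivariant maps
-/

set_option autoImplicit false

open Module

namespace Pool.Agent.U548.DG

universe u v w

open Pool.Agent.Y143 Pool.Agent.Y136.UB Pool.Agent.Y163.MW Pool.Agent.U644.LT

variable {Ω : Type w} [Field Ω] [CharZero Ω] {R R' R'' : Coh.{v, w} Ω} {q : ℕ}

/-- A linear map from `H^j` to `H^(j + 2 δ)` which respects the operators up to a twist. -/
structure Tw (R R' : Coh.{v, w} Ω) (q : ℕ) (j j' : ℕ) (δ : ℤ) (u : R.V →ₗ[Ω] R'.V) : Prop where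
  deg : (j' : ℤ) = j + 2 * δ
  gr : ∀ x ∈ R.gr j, u x ∈ R'.gr j'
  frob : ∀ x ∈ R.gr j, R'.F (u x) = (q : Ω) ^ δ • u (R.F x)
  mon : ∀ x ∈ R.gr j, R'.N (u x) = u (R.N x)

variable {j j' : ℕ} {δ : ℤ} {u : R.V →ₗ[Ω] R'.V}

lemma N_pow_gr (hR : IsPre R q) (a : ℕ) {x : R.V} (hx : x ∈ R.gr j) : (R.N ^ a) x ∈ R.gr j := by
  induction a with
  | zero => exact hx
  | succ a ih =>
    rw [pow_succ', Module.End.mul_apply]
    exact hR.N_gr j _ ih

lemma Tw.pow (hR : IsPre R q) (h : Tw R R' q j j' δ u) (a : ℕ) {x : R.V} (hx : x ∈ R.gr j) :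
    (R'.N ^ a) (u x) = u ((R.N ^ a) x) := by
  induction a with
  | zero => rfl
  | succ a ih =>
    rw [pow_succ', Module.End.mul_apply, ih, pow_succ', Module.End.mul_apply,
      h.mon _ (N_pow_gr hR a hx)]

lemma Tw.exc (hq : 1 < q) (hR : IsPre R q) (h : Tw R R' q j j' δ u) {c : ℤ} {x : R.V}
    (hx : x ∈ R.exc q j c) : u x ∈ R'.exc q j' c := by
  have hle : R.exc q j c ≤ (R'.exc q j' c).comap u := by
    refine iSup₂_le fun α hα => ?_
    intro y hy
    obtain ⟨hy1, hy2⟩ := Submodule.mem_inf.1 hy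
    have hα' : IsWeilNumber q ((j' : ℤ) + c) ((q : Ω) ^ δ * α) := by
      have h1 := hα.twist (by omega : q ≠ 0) δ
      rwa [show (j : ℤ) + c + 2 * δ = (j' : ℤ) + c by rw [h.deg]; ring] at h1
    refine Submodule.mem_iSup_of_mem _ (Submodule.mem_iSup_of_mem hα' (Submodule.mem_inf.2
      ⟨h.gr y hy1, ?_⟩))
    obtain ⟨n, hn⟩ := mem_gen.1 hy2
    refine mem_gen.2 ⟨n, ?_⟩
    have key : ∀ (n : ℕ) (y : R.V), y ∈ R.gr j →
        ((R.F - algebraMap Ω _ α) ^ n) y ∈ R.gr j ∧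
        ((R'.F - algebraMap Ω _ ((q : Ω) ^ δ * α)) ^ n) (u y) =
          ((q : Ω) ^ δ) ^ n • u (((R.F - algebraMap Ω _ α) ^ n) y) := by
      intro n
      induction n with
      | zero => intro y hy; exact ⟨hy, by rw [pow_zero, pow_zero, pow_zero, one_smul]; rfl⟩
      | succ n ih =>
        intro y hy
        obtain ⟨h1, h2⟩ := ih y hy
        have h3 : (R.F - algebraMap Ω _ α) (((R.F - algebraMap Ω _ α) ^ n) y) ∈ R.gr j := by
          rw [LinearMap.sub_apply, Module.algebraMap_end_apply]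
          exact Submodule.sub_mem _ (hR.F_gr j _ h1) (Submodule.smul_mem _ _ h1)
        refine ⟨?_, ?_⟩
        · rw [pow_succ', Module.End.mul_apply]
          exact h3
        · rw [pow_succ', Module.End.mul_apply, h2, pow_succ' (R.F - algebraMap Ω _ α),
            Module.End.mul_apply, map_smul, LinearMap.sub_apply, Module.algebraMap_end_apply,
            h.frob _ h1, LinearMap.sub_apply, Module.algebraMap_end_apply, map_sub, map_smul,
            pow_succ, mul_smul, ← smul_sub, smul_smul]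
    rw [(key n y hy1).2, hn, map_zero, smul_zero]
  exact hle hx

/-- The inverse of a bijection. -/
lemma Tw.symm (hR : IsPre R q) (hq : 0 < q) (h : Tw R R' q j j' δ u)
    (hs : ∀ y ∈ R'.gr j', ∃ x ∈ R.gr j, u x = y) {g : R'.V →ₗ[Ω] R.V}
    (hg : ∀ x ∈ R.gr j, g (u x) = x) : Tw R' R q j' j (-δ) g where
  deg := by rw [h.deg]; ring
  gr := by
    intro y hy
    obtain ⟨x, hx, rfl⟩ := hs y hy
    rw [hg x hx]
    exact hx
  frob := by
    intro y hy
    obtain ⟨x, hx, rfl⟩ := hs y hy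
    have hq0 : (q : Ω) ≠ 0 := Nat.cast_ne_zero.2 (by omega)
    rw [hg x hx, h.frob x hx, map_smul, hg _ (hR.F_gr j x hx), smul_smul, zpow_neg,
      inv_mul_cancel₀ (zpow_ne_zero _ hq0), one_smul]
  mon := by
    intro y hy
    obtain ⟨x, hx, rfl⟩ := hs y hy
    rw [hg x hx, h.mon x hx, hg _ (hR.N_gr j x hx)]

lemma Tw.comp {j'' : ℕ} {δ' : ℤ} {u' : R'.V →ₗ[Ω] R''.V} (hR : IsPre R q) (hq : 0 < q)
    (h : Tw R R' q j j' δ u) (h' : Tw R' R'' q j' j'' δ' u') :
    Tw R R'' q j j'' (δ + δ') (u' ∘ₗ u) where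
  deg := by rw [h'.deg, h.deg]; ring
  gr := fun x hx => h'.gr _ (h.gr x hx)
  frob := by
    intro x hx
    have hq0 : (q : Ω) ≠ 0 := Nat.cast_ne_zero.2 (by omega)
    rw [LinearMap.comp_apply, h'.frob _ (h.gr x hx), h.frob x hx, map_smul, smul_smul,
      LinearMap.comp_apply, zpow_add₀ hq0, mul_comm]
  mon := by
    intro x hx
    rw [LinearMap.comp_apply, h'.mon _ (h.gr x hx), h.mon x hx]
    rfl

/-- **Direct factors of sums.** -/
theorem mwPure_of_factor [IsAlgClosed Ω] (hq : 1 < q) (hR : IsPre R q) {j : ℕ} {ι : Type*}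
    (s : Finset ι) (R' : ι → Coh.{v, w} Ω) (hR' : ∀ t ∈ s, IsPre (R' t) q)
    (u : ∀ t, R.V →ₗ[Ω] (R' t).V) (v : ∀ t, (R' t).V →ₗ[Ω] R.V)
    (hsum : ∀ x ∈ R.gr j, ∑ t ∈ s, v t (u t x) = x)
    (h : ∀ t ∈ s, (∀ x ∈ R.gr j, v t (u t x) = 0) ∨ ∃ (j' : ℕ) (δ : ℤ),
      Tw R (R' t) q j j' δ (u t) ∧ Tw (R' t) R q j' j (-δ) (v t) ∧ (R' t).MWPure q j') :
    R.MWPure q j := by
  rw [mwPure_iff hq hR]
  intro a
  constructor
  · intro x hx h0
    have hxj : x ∈ R.gr j := exc_le j _ hx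
    rw [← hsum x hxj]
    refine Finset.sum_eq_zero fun t ht => ?_
    rcases h t ht with h1 | ⟨j', δ, h1, h2, h3⟩
    · exact h1 x hxj
    · rw [mwPure_iff hq (hR' t ht)] at h3
      have h4 := (h3 a).1 _ (h1.exc hq hR hx) (by rw [h1.pow hR a hxj, h0, map_zero])
      rw [h4, map_zero]
  · intro y hy
    have hyj : y ∈ R.gr j := exc_le j _ hy
    have h5 : ∀ t ∈ s, ∃ x ∈ R.exc q j a, (R.N ^ a) x = v t (u t y) := by
      intro t ht
      rcases h t ht with h1 | ⟨j', δ, h1, h2, h3⟩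
      · exact ⟨0, Submodule.zero_mem _, by rw [map_zero, h1 y hyj]⟩
      · rw [mwPure_iff hq (hR' t ht)] at h3
        obtain ⟨d, hd, hd'⟩ := (h3 a).2 _ (h1.exc hq hR hy)
        refine ⟨v t d, h2.exc hq (hR' t ht) hd, ?_⟩
        rw [h2.pow (hR' t ht) a (exc_le j' _ hd), hd']
    choose! x hx hx' using h5
    refine ⟨∑ t ∈ s, x t, Submodule.sum_mem _ hx, ?_⟩
    rw [map_sum, Finset.sum_congr rfl hx', hsum y hyj]

/-- One factor. -/
theorem mwPure_of_one [IsAlgClosed Ω] (hq : 1 < q) (hR : IsPre R q) (hR' : IsPre R' q) {j j' : ℕ}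
    {δ : ℤ} {u : R.V →ₗ[Ω] R'.V} {v : R'.V →ₗ[Ω] R.V} (h1 : Tw R R' q j j' δ u)
    (h2 : Tw R' R q j' j (-δ) v) (h3 : ∀ x ∈ R.gr j, v (u x) = x) (hp : R'.MWPure q j') :
    R.MWPure q j := by
  refine mwPure_of_factor hq hR (Finset.univ : Finset Unit) (fun _ => R') (fun _ _ => hR')
    (fun _ => u) (fun _ => v) ?_ (fun _ _ => Or.inr ⟨j', δ, h1, h2, hp⟩)
  intro x hx
  rw [Finset.univ_unique, Finset.sum_singleton]
  exact h3 x hx

/-- A group on which Frobenius is multiplication by a power of `q`, and the monodromy is zero. -/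
theorem mwPure_scalar (hq : 0 < q) {m : ℕ} (hF : ∀ x ∈ R.gr (2 * m), R.F x = (q : Ω) ^ m • x)
    (hN : ∀ x ∈ R.gr (2 * m), R.N x = 0) : R.MWPure q (2 * m) := by
  refine ⟨fun s => if 0 ≤ s then R.gr (2 * m) else ⊥, ⟨?_, ⟨-1, by simp⟩, ⟨0, by simp⟩, ?_, ?_, ?_,
    ?_⟩, ?_⟩
  · intro a b hab
    by_cases ha : 0 ≤ a
    · simp only [if_pos ha, if_pos (ha.trans hab), le_refl]
    · simp only [if_neg ha, bot_le]
  · intro a
    split_ifs
    · exact le_rfl
    · exact bot_le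
  · intro a x hx
    have hx' : x ∈ R.gr (2 * m) := by
      split_ifs at hx with ha
      · exact hx
      · rw [Submodule.mem_bot] at hx
        rw [hx]
        exact Submodule.zero_mem _
    rw [hN x hx']
    exact Submodule.zero_mem _
  · intro a x hx h0
    rcases Nat.eq_zero_or_pos a with rfl | ha
    · simpa using h0
    · have h4 : (0 : ℤ) ≤ (a : ℤ) - 1 := by omega
      simp only [if_pos h4]
      split_ifs at hx
      · exact hx
      · rw [Submodule.mem_bot] at hx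
        rw [hx]
        exact Submodule.zero_mem _
  · intro a y hy
    rcases Nat.eq_zero_or_pos a with rfl | ha
    · refine ⟨y, by simpa using hy, ?_⟩
      rw [pow_zero, Module.End.one_apply, sub_self]
      exact zero_mem _
    · have h4 : ¬ (0 : ℤ) ≤ -(a : ℤ) := by omega
      simp only [if_neg h4, Submodule.mem_bot] at hy
      refine ⟨0, zero_mem _, ?_⟩
      rw [hy, map_zero, sub_zero]
      exact zero_mem _
  · intro a α x hx hx1 hx2
    by_cases ha : 0 ≤ a
    · by_cases ha1 : 0 ≤ a - 1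
      · simp only [if_pos ha] at hx
        simp only [if_pos ha1] at hx1
        exact absurd hx hx1
      · have h0 : a = 0 := by omega
        subst h0
        simp only [if_neg ha1, Submodule.mem_bot] at hx1 hx2
        simp only [le_refl, if_true] at hx
        rw [hF x hx] at hx2
        have h4 : α = (q : Ω) ^ m := by
          by_contra hne
          have h5 : ((q : Ω) ^ m - α) • x = 0 := by rw [sub_smul]; exact hx2
          rcases smul_eq_zero.1 h5 with h6 | h6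
          · exact hne (sub_eq_zero.1 h6).symm
          · exact hx1 h6
        rw [h4]
        have h5 := weil_natPow (Ω := Ω) hq m
        simpa using h5
    · simp only [if_neg ha, Submodule.mem_bot] at hx
      rw [hx] at hx1
      exact absurd (Submodule.zero_mem _) hx1

/-- The zero group. -/
theorem mwPure_bot (hq : 0 < q) {j : ℕ} (h : R.gr j = ⊥) : R.MWPure q j := by
  refine ⟨fun _ => ⊥, ⟨fun _ _ _ => le_rfl, ⟨0, rfl⟩, ⟨0, h.symm⟩, fun _ => bot_le, ?_, ?_, ?_⟩, ?_⟩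
  · intro a x hx
    rw [Submodule.mem_bot] at hx ⊢
    rw [hx, map_zero]
  · intro a x hx _
    exact hx
  · intro a y hy
    refine ⟨y, hy, ?_⟩
    rw [Submodule.mem_bot] at hy ⊢
    rw [hy, map_zero, sub_zero]
  · intro a α x hx hx1
    exact absurd hx hx1

end Pool.Agent.U548.DG
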