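import Pool.Agent.U548.DG.Ops

/-!
# The monodromy-weight conjecture for varieties with a decomposition of the diagonal
-/

set_option autoImplicit false

open CategoryTheory AlgebraicGeometry

universe u v

namespace Pool.Agent.U548.DG

open Pool.Agent.H914 Pool.Agent.H914.VarClass Pool.Agent.H914.VarClass.Obj
  Pool.Agent.H914.WeilCohomology Pool.Agent.Y163.MW Pool.Agent.U644.LT Pool.Agent.R908

variable {k : Type u} [Field k] {𝒱 : VarClass k} {ops : CycleOps 𝒱}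
  {W : WeilCohomology.{u, v} ops} {A : LocalAction W} {q : ℕ} {X Y Z : 𝒱.Obj}

section Basic

variable (hA : A.Known q)
include hA

/-- The cohomology in degree zero. -/
lemma pure_zero (X : 𝒱.Obj) : A.PureIn q X 0 := by
  have h1 : A.F X 1 = 1 := by
    have h := hA.F_cl X 0 X.V.fundCycle X.V.fundCycle_mem
    rwa [W.cl_fund, pow_zero, one_smul] at h
  have h2 : A.N X 1 = 0 := by
    have h := hA.N_cl X 0 X.V.fundCycle X.V.fundCycle_mem
    rwa [W.cl_fund] at h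
  have h3 : (A.coh X).MWPure q (2 * 0) := by
    refine mwPure_scalar hA.q_pos ?_ ?_
    · intro (x : W.H X) hx
      have hx' : x ∈ W.gr X 0 := hx
      rw [W.gr_zero, Submodule.mem_span_singleton] at hx'
      obtain ⟨c, rfl⟩ := hx'
      change A.F X (c • 1) = (q : W.K) ^ 0 • (c • (1 : W.H X))
      rw [map_smul, h1, pow_zero, one_smul]
    · intro (x : W.H X) hx
      have hx' : x ∈ W.gr X 0 := hx
      rw [W.gr_zero, Submodule.mem_span_singleton] at hx'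
      obtain ⟨c, rfl⟩ := hx'
      change A.N X (c • 1) = (0 : W.H X)
      rw [map_smul, h2, smul_zero]
  exact h3

omit hA in
/-- A class in the top degree of trace zero is zero. -/
lemma top_eq_zero {x : W.H X} (hx : x ∈ W.gr X (2 * X.dim)) (h : W.tr X x = 0) : x = 0 := by
  apply W.nondeg
  intro b
  refine gr_induction (W.isInternal X) (p := fun b => W.tr X (x * b) = 0) ?_ ?_ b
  · intro i b hb
    by_cases hi : i = 0
    · subst hi
      rw [W.gr_zero, Submodule.mem_span_singleton] at hb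
      obtain ⟨c, rfl⟩ := hb
      rw [mul_smul_comm, mul_one, map_smul, h, smul_zero]
    · exact W.tr_eq_zero (W.mul_mem hx hb) (by omega)
  · intro a b ha hb
    rw [mul_add, map_add, ha, hb, add_zero]

/-- The cohomology in the top degree. -/
lemma pure_top (X : 𝒱.Obj) : A.PureIn q X (2 * X.dim) := by
  refine mwPure_scalar (R := A.coh X) hA.q_pos ?_ ?_
  · intro (x : W.H X) (hx : x ∈ W.gr X (2 * X.dim))
    change A.F X x = (q : W.K) ^ X.dim • x
    rw [← sub_eq_zero]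
    refine top_eq_zero (Submodule.sub_mem _ ((hA.pre X).F_gr _ x hx)
      (Submodule.smul_mem _ _ hx)) ?_
    rw [map_sub, hA.F_tr, map_smul, smul_eq_mul, sub_self]
  · intro (x : W.H X) (hx : x ∈ W.gr X (2 * X.dim))
    exact top_eq_zero ((hA.pre X).N_gr _ x hx) (hA.N_tr X x)

/-- The map `H^j(Y) → H^(2n - j)(Y)` and an inverse of it. -/
lemma exists_inverse [IsAlgClosed W.K] {S : 𝒱.Obj} {s : S ⟶ Y} {j : ℕ} (hj : j ≤ Y.dim)
    (hS : S.dim = j) (h : BijOn (W.gr Y) (pushPull W s) j (2 * Y.dim - j)) : ∃ g : W.H Y →ₗ[W.K] W.H Y,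
      Tw (A.coh Y) (A.coh Y) q j (2 * Y.dim - j) ((Y.dim : ℤ) - j)
        (W.push s ∘ₗ (W.map s).toLinearMap) ∧
      Tw (A.coh Y) (A.coh Y) q (2 * Y.dim - j) j (-((Y.dim : ℤ) - j)) g ∧
      (∀ x ∈ W.gr Y j, g (W.push s (W.map s x)) = x) ∧
      ∀ y ∈ W.gr Y (2 * Y.dim - j), W.push s (W.map s (g y)) = y := by
  set T : W.H Y →ₗ[W.K] W.H Y := W.push s ∘ₗ (W.map s).toLinearMap with hT
  have hTK : T ∈ KOp W Y Y ((Y.dim : ℤ) - j) := by
    have h1 := KOp.comp (KOp.pushHom (W := W) s) (KOp.mapHom (W := W) s)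
    exact KOp.cast h1 (by rw [hS]; ring)
  have hTw : Tw (A.coh Y) (A.coh Y) q j (2 * Y.dim - j) ((Y.dim : ℤ) - j) T :=
    hA.tw hTK (by push_cast [Nat.cast_sub (show j ≤ 2 * Y.dim by omega)]; ring)
  -- the inverse
  have hmem : ∀ x ∈ W.gr Y j, T x ∈ W.gr Y (2 * Y.dim - j) := fun x hx => hTw.gr x hx
  set T' : W.gr Y j →ₗ[W.K] W.gr Y (2 * Y.dim - j) := T.restrict hmem with hT'
  have hbij : Function.Bijective T' := by
    constructor
    · intro x y hxy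
      have h1 : T x = T y := congrArg Subtype.val hxy
      have h2 : T ((x : W.H Y) - y) = 0 := by rw [map_sub, h1, sub_self]
      exact Subtype.ext (sub_eq_zero.1 (h.1 _ (Submodule.sub_mem _ x.2 y.2) h2))
    · rintro ⟨y, hy⟩
      obtain ⟨x, hx, hxy⟩ := h.2 y hy
      exact ⟨⟨x, hx⟩, Subtype.ext hxy⟩
  set e := LinearEquiv.ofBijective T' hbij with he
  obtain ⟨g, hg⟩ := LinearMap.exists_extend ((W.gr Y j).subtype ∘ₗ e.symm.toLinearMap)
  have hgT : ∀ x ∈ W.gr Y j, g (T x) = x := by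
    intro x hx
    have h1 : g (T x) = ((W.gr Y j).subtype ∘ₗ e.symm.toLinearMap) (T' ⟨x, hx⟩) := by
      rw [← hg]
      rfl
    rw [h1]
    have h2 : e.symm (T' ⟨x, hx⟩) = ⟨x, hx⟩ := e.symm_apply_apply ⟨x, hx⟩
    change ((e.symm (T' ⟨x, hx⟩) : W.gr Y j) : W.H Y) = x
    rw [h2]
  refine ⟨g, hTw, ?_, hgT, ?_⟩
  · exact hTw.symm (hA.pre Y) hA.q_pos (fun y hy => h.2 y hy) hgT
  · intro y hy
    obtain ⟨x, hx, hxy⟩ := h.2 y hy
    have h1 : g y = x := by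
      rw [← hxy]
      exact hgT x hx
    rw [h1]
    exact hxy

/-- **Duality.** -/
theorem pure_dual_iff [IsAlgClosed W.K] (Y : 𝒱.Obj) {j : ℕ} (hj : j ≤ Y.dim) :
    A.PureIn q Y j ↔ A.PureIn q Y (2 * Y.dim - j) := by
  rcases Nat.eq_zero_or_pos j with rfl | hj0
  · rw [Nat.sub_zero]
    exact ⟨fun _ => pure_top hA Y, fun _ => pure_zero hA Y⟩
  · obtain ⟨S, s, hS, h⟩ := hA.section_exists Y j hj0 hj
    obtain ⟨g, h1, h2, h3, h4⟩ := exists_inverse hA hj hS h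
    constructor
    · intro hp
      refine mwPure_of_one hA.one_lt (hA.pre Y) (hA.pre Y) (δ := -((Y.dim : ℤ) - j))
        (v := W.push s ∘ₗ (W.map s).toLinearMap) h2 ?_ h4 hp
      rw [neg_neg]
      exact h1
    · intro hp
      exact mwPure_of_one hA.one_lt (hA.pre Y) (hA.pre Y) h1 h2 h3 hp

/-- **Low degrees.** -/
theorem pure_low [IsAlgClosed W.K] {D : ℕ} (hD : ∀ Y : 𝒱.Obj, Y.dim ≤ D → A.MW q Y) (Y : 𝒱.Obj)
    {j : ℕ} (hj : j ≤ D) : A.PureIn q Y j := by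
  by_cases hY : Y.dim ≤ D
  · exact hD Y hY j
  rcases Nat.eq_zero_or_pos j with rfl | hj0
  · exact pure_zero hA Y
  have hjY : j ≤ Y.dim := by omega
  obtain ⟨S, s, hS, h⟩ := hA.section_exists Y j hj0 hjY
  obtain ⟨g, h1, h2, h3, h4⟩ := exists_inverse hA hjY hS h
  have hu : Tw (A.coh Y) (A.coh S) q j j 0 (W.map s).toLinearMap :=
    hA.tw (KOp.mapHom s) (by ring)
  have hv : Tw (A.coh S) (A.coh Y) q j (2 * Y.dim - j) ((Y.dim : ℤ) - j) (W.push s) :=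
    hA.tw (KOp.cast (KOp.pushHom s) (by rw [hS]))
      (by push_cast [Nat.cast_sub (show j ≤ 2 * Y.dim by omega)]; ring)
  have hw := hv.comp (hA.pre S) hA.q_pos h2
  refine mwPure_of_one hA.one_lt (hA.pre Y) (hA.pre S) hu (j' := j) (v := g ∘ₗ W.push s) ?_ ?_
    (hD S (by omega) j)
  · have e : (Y.dim : ℤ) - j + -((Y.dim : ℤ) - j) = -0 := by ring
    rw [← e]
    exact hw
  · intro x hx
    exact h3 x hx

/-- **High degrees.** -/
theorem pure_high [IsAlgClosed W.K] {D : ℕ} (hD : ∀ Y : 𝒱.Obj, Y.dim ≤ D → A.MW q Y) (Y : 𝒱.Obj)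
    {j : ℕ} (hj : 2 * Y.dim ≤ j + D) : A.PureIn q Y j := by
  by_cases hY : Y.dim ≤ D
  · exact hD Y hY j
  by_cases hj2 : 2 * Y.dim < j
  · exact mwPure_bot (R := A.coh Y) hA.q_pos (W.gr_eq_bot Y j hj2)
  · have h1 := (pure_dual_iff hA Y (j := 2 * Y.dim - j) (by omega)).1
      (pure_low hA hD Y (by omega))
    rwa [show 2 * Y.dim - (2 * Y.dim - j) = j by omega] at h1

/-- The two factorisations of the operator of a supported cycle. -/
lemma supported_factor [IsAlgClosed W.K] {D c : ℕ} (hD : ∀ Y : 𝒱.Obj, Y.dim ≤ D → A.MW q Y)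
    (Z : Supported X) (hdim : Z.S.dim + Z.T.dim ≤ X.dim + D ∨ Z.T.dim + c ≤ X.dim) {j : ℕ}
    (hj : j ≤ D + 2 * c) :
    ∃ (Y' : 𝒱.Obj) (u : W.H X →ₗ[W.K] W.H Y') (v : W.H Y' →ₗ[W.K] W.H X),
      (∀ x, v (u x) = Z.op W x) ∧
      ((∀ x ∈ W.gr X j, v (u x) = 0) ∨ ∃ (j' : ℕ) (δ : ℤ),
        Tw (A.coh X) (A.coh Y') q j j' δ u ∧ Tw (A.coh Y') (A.coh X) q j' j (-δ) v ∧
          (A.coh Y').MWPure q j') := by
  have hcor : W.corr (W.cl _ Z.z) ∈ KOp W Z.S Z.T (Z.T.dim - X.dim : ℤ) := by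
    have h1 := Z.dim_eq
    exact KOp.gen (p := Z.p) (by omega) Z.isCyc
  have hop : ∀ x, Z.op W x = W.push Z.w (W.corr (W.cl _ Z.z) (W.map Z.v x)) := fun _ => rfl
  have hu1 : (W.map Z.v).toLinearMap ∈ KOp W X Z.S 0 := KOp.mapHom _
  have hv2 : W.push Z.w ∈ KOp W Z.T X ((X.dim : ℤ) - Z.T.dim) := KOp.pushHom _
  by_cases hneg : (j : ℤ) + 2 * (Z.T.dim - X.dim : ℤ) < 0
  · refine ⟨Z.T, W.corr (W.cl _ Z.z) ∘ₗ (W.map Z.v).toLinearMap, W.push Z.w,
      fun x => (hop x).symm, Or.inl fun x hx => ?_⟩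
    have h1 := LocalAction.Known.zero_of_neg hcor hneg (W.map_mem Z.v hx)
    change W.push Z.w (W.corr (W.cl _ Z.z) (W.map Z.v x)) = 0
    rw [h1, map_zero]
  · obtain ⟨j', hj'⟩ : ∃ j' : ℕ, (j' : ℤ) = j + 2 * (Z.T.dim - X.dim : ℤ) :=
      ⟨((j : ℤ) + 2 * (Z.T.dim - X.dim : ℤ)).toNat, by omega⟩
    by_cases hlow : j' ≤ D
    · exact ⟨Z.T, W.corr (W.cl _ Z.z) ∘ₗ (W.map Z.v).toLinearMap, W.push Z.w,
        fun x => (hop x).symm, Or.inr ⟨j', Z.T.dim - X.dim, hA.tw (KOp.cast (KOp.comp hcor hu1)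
          (zero_add _)) hj', hA.tw (KOp.cast hv2 (by ring)) (by rw [hj']; ring),
          pure_low hA hD _ hlow⟩⟩
    · refine ⟨Z.S, (W.map Z.v).toLinearMap, W.push Z.w ∘ₗ W.corr (W.cl _ Z.z),
        fun x => (hop x).symm, Or.inr ⟨j, 0, hA.tw hu1 (by ring),
          hA.tw (KOp.cast (KOp.comp hv2 hcor) (by ring)) (by ring), ?_⟩⟩
      apply pure_high hA hD
      rcases hdim with h | h
      · omega
      · omega

omit hA in
/-- Only the terms of degree zero matter. -/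
lemma sum_degree_zero {m : ℕ} {φ : Fin m → Module.End W.K (W.H X)} {e : Fin m → ℤ}
    (hφ : ∀ t, φ t ∈ KOp W X X (e t)) {j : ℕ} {x : W.H X} (hx : x ∈ W.gr X j)
    (h : ∑ t, φ t x = x) : ∑ t ∈ Finset.univ.filter (fun t => e t = 0), φ t x = x := by
  classical
  rw [← Finset.sum_filter_add_sum_filter_not Finset.univ (fun t => e t = 0)] at h
  have hdeg : ∀ t, φ t x ∈ grZ (W.gr X) (j + 2 * (e t)) := by
    intro t
    exact KOp.isHom (hφ t) j x (by rw [grZ_natCast]; exact hx)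
  have h2 : ∑ t ∈ Finset.univ.filter (fun t => ¬ e t = 0), φ t x ∈
      ⨆ i, ⨆ (_ : i ≠ j), W.gr X i := by
    refine Submodule.sum_mem _ (fun t ht => ?_)
    have ht' : e t ≠ 0 := (Finset.mem_filter.1 ht).2
    by_cases hneg : (j : ℤ) + 2 * (e t) < 0
    · have h3 := hdeg t
      rw [grZ_of_neg hneg] at h3
      rw [(Submodule.mem_bot _).1 h3]
      exact Submodule.zero_mem _
    · obtain ⟨i, hi⟩ : ∃ i : ℕ, (i : ℤ) = j + 2 * (e t) :=
        ⟨((j : ℤ) + 2 * (e t)).toNat, by omega⟩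
      have h3 := hdeg t
      rw [← hi, grZ_natCast] at h3
      exact Submodule.mem_iSup_of_mem i (Submodule.mem_iSup_of_mem (by omega) h3)
  have h4 : ∑ t ∈ Finset.univ.filter (fun t => e t = 0), φ t x ∈ W.gr X j := by
    refine Submodule.sum_mem _ (fun t ht => ?_)
    have ht' : e t = 0 := (Finset.mem_filter.1 ht).2
    have h3 := hdeg t
    rw [ht', mul_zero, add_zero, grZ_natCast] at h3
    exact h3
  have h5 : ∑ t ∈ Finset.univ.filter (fun t => ¬ e t = 0), φ t x ∈ W.gr X j := by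
    have h6 : ∑ t ∈ Finset.univ.filter (fun t => ¬ e t = 0), φ t x =
        x - ∑ t ∈ Finset.univ.filter (fun t => e t = 0), φ t x := by
      rw [eq_sub_iff_add_eq, add_comm]
      exact h
    rw [h6]
    exact Submodule.sub_mem _ hx h4
  have hdis := (W.isInternal X).submodule_iSupIndep j
  have h7 := Submodule.disjoint_def.1 hdis _ h5 h2
  rw [h7, add_zero] at h
  exact h

/-- Each piece is homogeneous, and factors in a suitable way if it has degree zero. -/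
lemma piece_factor [IsAlgClosed W.K] {D c : ℕ} {𝒞 : Set 𝒱.Obj}
    (hD : ∀ Y : 𝒱.Obj, Y.dim ≤ D → A.MW q Y) (h𝒞 : ∀ Y ∈ 𝒞, A.MW q Y) {j : ℕ}
    (hj : j ≤ D + 2 * c) {φ : Module.End W.K (W.H X)} (hφ : φ ∈ pieces W 𝒞 X D c) :
    ∃ e : ℤ, φ ∈ KOp W X X e ∧ ∃ (Y' : 𝒱.Obj) (u : W.H X →ₗ[W.K] W.H Y')
      (v : W.H Y' →ₗ[W.K] W.H X), (∀ x, v (u x) = φ x) ∧
      (e = 0 → (∀ x ∈ W.gr X j, v (u x) = 0) ∨ ∃ (j' : ℕ) (δ : ℤ),
        Tw (A.coh X) (A.coh Y') q j j' δ u ∧ Tw (A.coh Y') (A.coh X) q j' j (-δ) v ∧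
          (A.coh Y').MWPure q j') := by
  rcases hφ with ⟨Z, hdim, rfl⟩ | ⟨Z, hZ, rfl⟩
  · obtain ⟨Y', u, v, h1, h2⟩ := supported_factor hA hD Z hdim hj
    refine ⟨0, ?_, Y', u, v, h1, fun _ => h2⟩
    have hcor : W.corr (W.cl _ Z.z) ∈ KOp W Z.S Z.T (Z.T.dim - X.dim : ℤ) := by
      have h1 := Z.dim_eq
      exact KOp.gen (p := Z.p) (by omega) Z.isCyc
    have hu1 : (W.map Z.v).toLinearMap ∈ KOp W X Z.S 0 := KOp.mapHom _
    have hv2 : W.push Z.w ∈ KOp W Z.T X ((X.dim : ℤ) - Z.T.dim) := KOp.pushHom _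
    exact KOp.cast (KOp.comp hv2 (KOp.comp hcor hu1)) (by ring)
  · have hu : W.corr (W.cl _ Z.z) ∈ KOp W X Z.Y ((Z.p : ℤ) - X.dim) :=
      KOp.gen (p := Z.p) (by ring) Z.isCyc
    have hv : W.corr (W.cl _ Z.z') ∈ KOp W Z.Y X ((Z.p' : ℤ) - Z.Y.dim) :=
      KOp.gen (p := Z.p') (by ring) Z.isCyc'
    refine ⟨_, KOp.comp hv hu, Z.Y, W.corr (W.cl _ Z.z), W.corr (W.cl _ Z.z'), fun _ => rfl, ?_⟩
    intro he
    by_cases hneg : (j : ℤ) + 2 * ((Z.p : ℤ) - X.dim) < 0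
    · left
      intro x hx
      have h1 : W.corr (W.cl _ Z.z) x = 0 := LocalAction.Known.zero_of_neg hu hneg hx
      rw [h1, map_zero]
    · right
      obtain ⟨j', hj'⟩ : ∃ j' : ℕ, (j' : ℤ) = j + 2 * ((Z.p : ℤ) - X.dim) :=
        ⟨((j : ℤ) + 2 * ((Z.p : ℤ) - X.dim)).toNat, by omega⟩
      exact ⟨j', _, hA.tw hu hj', hA.tw (KOp.cast hv (by omega)) (by rw [hj']; ring), h𝒞 _ hZ j'⟩

/-- **Decomposition of the diagonal**, in low degrees. -/
theorem pure_of_decomposition [IsAlgClosed W.K] {D c : ℕ} {𝒞 : Set 𝒱.Obj}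
    (hD : ∀ Y : 𝒱.Obj, Y.dim ≤ D → A.MW q Y) (h𝒞 : ∀ Y ∈ 𝒞, A.MW q Y)
    (hX : HasDecomposition W 𝒞 X D c) {j : ℕ} (hj : j ≤ D + 2 * c) : A.PureIn q X j := by
  classical
  obtain ⟨l, hl, hsum⟩ := AddSubmonoid.exists_list_of_mem_closure hX
  have hl' : ∀ i : Fin l.length, l[i] ∈ pieces W 𝒞 X D c := fun i => hl _ (List.getElem_mem _)
  choose e he Y' u v huv h using fun i => piece_factor hA hD h𝒞 hj (hl' i)
  have hsum' : ∀ x : W.H X, ∑ i : Fin l.length, l[i] x = x := by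
    intro x
    have h1 : ∑ i : Fin l.length, l[i] = (1 : Module.End W.K (W.H X)) := by
      rw [← hsum]
      exact Fin.sum_univ_getElem l
    have h2 := congrArg (fun F => F x) h1
    beta_reduce at h2
    rw [LinearMap.sum_apply] at h2
    exact h2
  refine mwPure_of_factor hA.one_lt (hA.pre X) (Finset.univ.filter (fun i => e i = 0))
    (fun i => A.coh (Y' i)) (fun _ _ => hA.pre _) u v ?_ (fun t ht =>
      h t (Finset.mem_filter.1 ht).2)
  intro (x : W.H X) (hx : x ∈ W.gr X j)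
  have h1 := sum_degree_zero (φ := fun i => l[i]) he hx (hsum' x)
  rw [← Finset.sum_congr rfl (fun i _ => huv i x)] at h1
  exact h1

/-- **Decomposition of the diagonal.** -/
theorem main [IsAlgClosed W.K] {D c : ℕ} {𝒞 : Set 𝒱.Obj}
    (hD : ∀ Y : 𝒱.Obj, Y.dim ≤ D → A.MW q Y) (h𝒞 : ∀ Y ∈ 𝒞, A.MW q Y)
    (hX : HasDecomposition W 𝒞 X D c) {j : ℕ}
    (hj : j ≤ D + 2 * c ∨ 2 * X.dim ≤ j + D + 2 * c) : A.PureIn q X j := by
  rcases hj with hj | hj
  · exact pure_of_decomposition hA hD h𝒞 hX hj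
  · by_cases hj2 : 2 * X.dim < j
    · exact mwPure_bot (R := A.coh X) hA.q_pos (W.gr_eq_bot X j hj2)
    · have h1 : A.PureIn q X (2 * X.dim - j) := pure_of_decomposition hA hD h𝒞 hX (by omega)
      by_cases hj3 : j ≤ X.dim
      · exact (pure_dual_iff hA X hj3).2 h1
      · have h2 := (pure_dual_iff hA X (j := 2 * X.dim - j) (by omega)).1 h1
        rwa [show 2 * X.dim - (2 * X.dim - j) = j by omega] at h2

/-- All degrees. -/
theorem main_all [IsAlgClosed W.K] {D c : ℕ} {𝒞 : Set 𝒱.Obj}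
    (hD : ∀ Y : 𝒱.Obj, Y.dim ≤ D → A.MW q Y) (h𝒞 : ∀ Y ∈ 𝒞, A.MW q Y)
    (hX : HasDecomposition W 𝒞 X D c) (hdim : X.dim ≤ D + 2 * c) : A.MW q X := by
  intro j
  exact main hA hD h𝒞 hX (by omega)

end Basic

end Pool.Agent.U548.DG
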