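import Pool.Agent.U548.DG.Defs
import Pool.Agent.U548.DG.Lin
import Pool.Agent.R908.Ext

/-!
# Correspondences and the local operators
-/

set_option autoImplicit false

open CategoryTheory AlgebraicGeometry

universe u v

namespace Pool.Agent.U548.DG

open Pool.Agent.H914 Pool.Agent.H914.VarClass Pool.Agent.H914.VarClass.Obj
  Pool.Agent.H914.WeilCohomology Pool.Agent.Y163.MW Pool.Agent.U644.LT Pool.Agent.R908

variable {k : Type u} [Field k] {𝒱 : VarClass k} {ops : CycleOps 𝒱}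
  {W : WeilCohomology.{u, v} ops} {A : LocalAction W} {q : ℕ} {X Y Z : 𝒱.Obj}

namespace LocalAction.Known

variable (hA : A.Known q)
include hA

lemma q_ne : (q : W.K) ≠ 0 := Nat.cast_ne_zero.2 (by have := hA.one_lt; omega)

lemma q_pos : 0 < q := by have := hA.one_lt; omega

lemma F_mul (X : 𝒱.Obj) (x y : W.H X) : A.F X (x * y) = A.F X x * A.F X y := (hA.alg X).F_mul x y
lemma N_mul (X : 𝒱.Obj) (x y : W.H X) : A.N X (x * y) = A.N X x * y + x * A.N X y :=
  (hA.alg X).N_mul x y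
lemma F_map (f : X ⟶ Y) (y : W.H Y) : A.F X (W.map f y) = W.map f (A.F Y y) := (hA.map f).1 y
lemma N_map (f : X ⟶ Y) (y : W.H Y) : A.N X (W.map f y) = W.map f (A.N Y y) := (hA.map f).2 y
lemma F_tr (X : 𝒱.Obj) (x : W.H X) : W.tr X (A.F X x) = (q : W.K) ^ X.dim * W.tr X x :=
  (hA.alg X).F_tr x
lemma N_tr (X : 𝒱.Obj) (x : W.H X) : W.tr X (A.N X x) = 0 := (hA.alg X).N_tr x
lemma F_cl (X : 𝒱.Obj) (j : ℕ) (z : X.Cycles) (hz : X.IsCyc j z) :
    A.F X (W.cl X z) = (q : W.K) ^ j • W.cl X z := (hA.cl X j z hz).1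
lemma N_cl (X : 𝒱.Obj) (j : ℕ) (z : X.Cycles) (hz : X.IsCyc j z) : A.N X (W.cl X z) = 0 :=
  (hA.cl X j z hz).2

/-- Frobenius is injective. -/
lemma F_inj (x : W.H X) (h : A.F X x = 0) : x = 0 := by
  apply W.nondeg
  intro b
  have h1 := hA.F_tr X (x * b)
  rw [hA.F_mul, h, zero_mul, map_zero] at h1
  exact (mul_eq_zero.1 h1.symm).resolve_left (pow_ne_zero _ hA.q_ne)

lemma F_surj (y : W.H X) : ∃ x, A.F X x = y := by
  have h1 : Function.Injective (A.F X) := by
    intro x y h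
    rw [← sub_eq_zero]
    apply hA.F_inj
    rw [map_sub, h, sub_self]
  exact (LinearMap.injective_iff_surjective.1 h1) y

/-- Frobenius and the push-forward. -/
lemma F_push (f : X ⟶ Y) (x : W.H X) :
    (q : W.K) ^ X.dim • A.F Y (W.push f x) = (q : W.K) ^ Y.dim • W.push f (A.F X x) := by
  rw [← sub_eq_zero]
  apply W.nondeg
  intro b
  obtain ⟨y, rfl⟩ := hA.F_surj b
  have h1 : W.tr Y (A.F Y (W.push f x) * A.F Y y) = (q : W.K) ^ Y.dim * W.tr Y (W.push f x * y) := by
    rw [← hA.F_mul, hA.F_tr]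
  have h2 : W.tr Y (W.push f (A.F X x) * A.F Y y) = (q : W.K) ^ X.dim * W.tr X (x * W.map f y) := by
    rw [W.tr_push, ← hA.F_map, ← hA.F_mul, hA.F_tr]
  rw [sub_mul, map_sub, smul_mul_assoc, smul_mul_assoc, map_smul, map_smul, h1, h2, W.tr_push,
    smul_eq_mul, smul_eq_mul, sub_eq_zero]
  ring

/-- The monodromy operator and the push-forward. -/
lemma N_push (f : X ⟶ Y) (x : W.H X) : A.N Y (W.push f x) = W.push f (A.N X x) := by
  rw [← sub_eq_zero]
  apply W.nondeg
  intro y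
  have h1 : W.tr Y (A.N Y (W.push f x) * y) = - W.tr Y (W.push f x * A.N Y y) := by
    have h := hA.N_tr Y (W.push f x * y)
    rw [hA.N_mul, map_add] at h
    exact eq_neg_of_add_eq_zero_left h
  have h2 : W.tr X (A.N X x * W.map f y) = - W.tr X (x * W.map f (A.N Y y)) := by
    have h := hA.N_tr X (x * W.map f y)
    rw [hA.N_mul, map_add, hA.N_map] at h
    exact eq_neg_of_add_eq_zero_left h
  rw [sub_mul, map_sub, h1, W.tr_push, W.tr_push, h2, sub_self]

/-- Frobenius and algebraic correspondences. -/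
lemma F_KOp {δ : ℤ} {u : W.H X →ₗ[W.K] W.H Y} (hu : u ∈ KOp W X Y δ) (x : W.H X) :
    A.F Y (u x) = (q : W.K) ^ δ • u (A.F X x) := by
  induction hu using Submodule.span_induction with
  | mem u hu =>
    obtain ⟨p, hp, z, hz, rfl⟩ := hu
    rw [corr_apply, corr_apply]
    have h1 := hA.F_push (snd X Y) (W.cl (X.prod Y) z * W.map (fst X Y) x)
    rw [hA.F_mul, hA.F_cl _ p z hz, hA.F_map, smul_mul_assoc, map_smul, smul_smul, dim_prod,
      ← pow_add] at h1
    have h2 : (q : W.K) ^ (Y.dim + p) = (q : W.K) ^ (X.dim + Y.dim) * (q : W.K) ^ δ := by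
      rw [← zpow_natCast, ← zpow_natCast, ← zpow_add₀ hA.q_ne]
      congr 1
      push_cast
      rw [hp]
      ring
    rw [h2, mul_smul] at h1
    exact smul_right_injective _ (pow_ne_zero _ hA.q_ne) h1
  | zero => rw [LinearMap.zero_apply, LinearMap.zero_apply, map_zero, smul_zero]
  | add a b _ _ ha hb => rw [LinearMap.add_apply, LinearMap.add_apply, map_add, ha, hb, smul_add]
  | smul c a _ ha =>
    rw [LinearMap.smul_apply, LinearMap.smul_apply, map_smul, ha, smul_comm]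

/-- The monodromy operator and algebraic correspondences. -/
lemma N_KOp {δ : ℤ} {u : W.H X →ₗ[W.K] W.H Y} (hu : u ∈ KOp W X Y δ) (x : W.H X) :
    A.N Y (u x) = u (A.N X x) := by
  induction hu using Submodule.span_induction with
  | mem u hu =>
    obtain ⟨p, hp, z, hz, rfl⟩ := hu
    rw [corr_apply, corr_apply, hA.N_push, hA.N_mul, hA.N_cl _ p z hz, zero_mul, zero_add, hA.N_map]
  | zero => rw [LinearMap.zero_apply, LinearMap.zero_apply, map_zero]
  | add a b _ _ ha hb => rw [LinearMap.add_apply, LinearMap.add_apply, map_add, ha, hb]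
  | smul c a _ ha => rw [LinearMap.smul_apply, LinearMap.smul_apply, map_smul, ha]

/-- Algebraic correspondences respect the operators up to a twist. -/
lemma tw {δ : ℤ} {u : W.H X →ₗ[W.K] W.H Y} (hu : u ∈ KOp W X Y δ) {j j' : ℕ}
    (hj : (j' : ℤ) = j + 2 * δ) : Tw (A.coh X) (A.coh Y) q j j' δ u where
  deg := hj
  gr := by
    intro x hx
    have h1 := KOp.isHom hu j x (by rw [grZ_natCast]; exact hx)
    rw [← hj, grZ_natCast] at h1
    exact h1
  frob := fun x _ => hA.F_KOp hu x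
  mon := fun x _ => hA.N_KOp hu x

omit hA in
/-- Correspondences to negative degrees are zero. -/
lemma zero_of_neg {δ : ℤ} {u : W.H X →ₗ[W.K] W.H Y} (hu : u ∈ KOp W X Y δ) {j : ℕ}
    (hj : (j : ℤ) + 2 * δ < 0) {x : W.H X} (hx : x ∈ W.gr X j) : u x = 0 := by
  have h1 := KOp.isHom hu j x (by rw [grZ_natCast]; exact hx)
  rw [grZ_of_neg hj] at h1
  exact (Submodule.mem_bot _).1 h1

end LocalAction.Known

end Pool.Agent.U548.DG
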